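import Pool.Agent.U797.GC.Flat
import Pool.Agent.H367R3.GSForest

set_option autoImplicit false
set_option maxHeartbeats 4000000

/-!
# Trees without twins and graphs with vertices replaced by independent sets
-/

namespace Pool.Agent.U137.HB

open Finset Pool.Agent.Y394.AT Pool.Agent.R50.MC

/-- the graph `T` with a pendant vertex attached to every vertex -/
def fat {α : Type} (T : SimpleGraph α) : SimpleGraph (α × Bool) where
  Adj p q := (T.Adj p.1 q.1 ∧ p.2 = false ∧ q.2 = false) ∨ (p.1 = q.1 ∧ p.2 ≠ q.2)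
  symm := ⟨by
    rintro p q (⟨h1, h2, h3⟩ | ⟨h1, h2⟩)
    · exact Or.inl ⟨h1.symm, h3, h2⟩
    · exact Or.inr ⟨h1.symm, h2.symm⟩⟩
  loopless := ⟨by
    rintro p (⟨h1, _⟩ | ⟨_, h2⟩)
    · exact T.irrefl h1
    · exact h2 rfl⟩

theorem fat_adj {α : Type} (T : SimpleGraph α) (p q : α × Bool) : (fat T).Adj p q ↔
    (T.Adj p.1 q.1 ∧ p.2 = false ∧ q.2 = false) ∨ (p.1 = q.1 ∧ p.2 ≠ q.2) := Iff.rfl

/-- there are no twins in `fat T` -/
theorem fat_twin {α : Type} (T : SimpleGraph α) (p q : α × Bool)
    (h : ∀ r, (fat T).Adj p r ↔ (fat T).Adj q r) : p = q := by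
  obtain ⟨a, s⟩ := p
  obtain ⟨b, t⟩ := q
  have h1 := (h (a, !s)).1 (Or.inr ⟨rfl, by simp⟩)
  rcases h1 with ⟨h2, h3, h4⟩ | ⟨h2, h3⟩
  · simp only at h2 h3 h4
    have h5 : s = true := by
      cases s
      · simp at h4
      · rfl
    subst h5
    subst h3
    have h6 := (h (b, true)).2 (Or.inr ⟨rfl, by simp⟩)
    rcases h6 with ⟨_, h7, _⟩ | ⟨_, h7⟩
    · simp at h7
    · simp at h7
  · simp only at h2 h3
    subst h2
    have : t = s := by
      cases s <;> cases t <;> simp_all
    rw [this]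

/-- `T` is an induced subgraph of `fat T` -/
def fatEmb {α : Type} (T : SimpleGraph α) : T ↪g fat T where
  toFun a := (a, false)
  inj' a b h := (Prod.ext_iff.1 h).1
  map_rel_iff' {a b} := by
    change (fat T).Adj (a, false) (b, false) ↔ T.Adj a b
    rw [fat_adj]
    simp

theorem fat_acyclic {α : Type} (T : SimpleGraph α) (hT : T.IsAcyclic) : (fat T).IsAcyclic := by
  rw [SimpleGraph.isAcyclic_iff_forall_adj_isBridge] at hT ⊢
  -- pendant edges
  have hpend : ∀ a : α, (fat T).IsBridge s((a, true), (a, false)) := by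
    intro a
    rw [SimpleGraph.isBridge_iff]
    rintro ⟨w⟩
    cases w with
    | cons h p =>
      rw [SimpleGraph.deleteEdges_adj, fat_adj] at h
      obtain ⟨h1, h2⟩ := h
      rcases h1 with ⟨_, h3, _⟩ | ⟨h3, h4⟩
      · simp at h3
      · apply h2
        rename_i v
        obtain ⟨b, t⟩ := v
        simp only at h3 h4
        subst h3
        have : t = false := by
          cases t
          · rfl
          · simp at h4
        rw [this]
        exact Set.mem_singleton _
  intro p q hpq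
  rcases hpq with ⟨h1, h2, h3⟩ | ⟨h1, h2⟩
  · have h4 := hT h1
    rw [SimpleGraph.isBridge_iff] at h4 ⊢
    intro hr
    apply h4
    have key : ∀ u v : α × Bool, ((fat T).deleteEdges {s(p, q)}).Reachable u v →
        (T.deleteEdges {s(p.1, q.1)}).Reachable u.1 v.1 := by
      rintro u v ⟨w⟩
      induction w with
      | nil => exact SimpleGraph.Reachable.refl _
      | cons h _ ih =>
        refine SimpleGraph.Reachable.trans ?_ ih
        rw [SimpleGraph.deleteEdges_adj, fat_adj] at h
        obtain ⟨h5, h6⟩ := h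
        rcases h5 with ⟨h7, h8, h9⟩ | ⟨h7, _⟩
        · apply SimpleGraph.Adj.reachable
          rw [SimpleGraph.deleteEdges_adj]
          refine ⟨h7, ?_⟩
          intro h10
          apply h6
          rw [Set.mem_singleton_iff, Sym2.eq_iff] at h10 ⊢
          rcases h10 with ⟨h11, h12⟩ | ⟨h11, h12⟩
          · exact Or.inl ⟨Prod.ext h11 (h8.trans h2.symm), Prod.ext h12 (h9.trans h3.symm)⟩
          · exact Or.inr ⟨Prod.ext h11 (h8.trans h3.symm), Prod.ext h12 (h9.trans h2.symm)⟩
        · rw [h7]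
    exact key p q hr
  · obtain ⟨a, s⟩ := p
    obtain ⟨b, t⟩ := q
    simp only at h1 h2
    subst h1
    cases s with
    | true =>
      cases t with
      | true => exact absurd rfl h2
      | false => exact hpend a
    | false =>
      cases t with
      | true =>
        rw [Sym2.eq_swap]
        exact hpend a
      | false => exact absurd rfl h2

variable {V : Type}

/-- the vertex `v` is replaced by `m v` independent vertices -/
def blow (G : SimpleGraph V) (m : V → ℕ) : SimpleGraph (Σ v, Fin (m v)) := G.comap Sigma.fst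

theorem blow_cliqueFree {G : SimpleGraph V} {n : ℕ} (h : G.CliqueFree n) (m : V → ℕ) :
    (blow G m).CliqueFree n := by
  by_contra hcon
  rw [SimpleGraph.not_cliqueFree_iff_top_isContained] at hcon
  obtain ⟨φ⟩ := hcon
  let ψ : SimpleGraph.completeGraph (Fin n) →g G :=
    { toFun := fun i => (φ i).1
      map_rel' := fun {a b} hab => φ.toHom.map_adj hab }
  have hψ : Function.Injective ψ := SimpleGraph.Hom.injective_of_top_hom ψ
  exact (SimpleGraph.not_cliqueFree_iff_top_isContained n).2 ⟨ψ.toCopy hψ⟩ h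

theorem blow_emb {G : SimpleGraph V} {α : Type} (T : SimpleGraph α)
    (hT : ∀ p q, (∀ r, T.Adj p r ↔ T.Adj q r) → p = q) (m : V → ℕ) (φ : T ↪g blow G m) :
    Nonempty (T ↪g G) := by
  have h1 : ∀ a b, T.Adj a b ↔ G.Adj (φ a).1 (φ b).1 := by
    intro a b
    exact (φ.map_rel_iff (a := a) (b := b)).symm
  refine ⟨⟨⟨fun a => (φ a).1, ?_⟩, ?_⟩⟩
  · intro a b hab
    apply hT
    intro r
    rw [h1, h1]
    change (φ a).1 = (φ b).1 at hab
    rw [hab]
  · intro a b
    exact (h1 a b).symm

variable [Fintype V] {G : SimpleGraph V}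

theorem q_smul (t : ℝ) (f : V → ℝ) : q G (fun v => t * f v) = t ^ 2 * q G f := by
  unfold q
  rw [bb_smul_left, bb_comm, bb_smul_left]
  ring

open Classical in
theorem q_blow (m : V → ℕ) (F : (Σ v, Fin (m v)) → ℝ) :
    q (blow G m) F = q G (fun v => ∑ i, F ⟨v, i⟩) := by
  unfold q bb
  rw [Fintype.sum_sigma]
  refine sum_congr rfl fun v _ => ?_
  have h1 : ∀ i : Fin (m v), ∑ p : (Σ v, Fin (m v)),
      (if (blow G m).Adj ⟨v, i⟩ p then F ⟨v, i⟩ * F p else 0) =
      ∑ w, if G.Adj v w then F ⟨v, i⟩ * ∑ j, F ⟨w, j⟩ else 0 := by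
    intro i
    rw [Fintype.sum_sigma]
    refine sum_congr rfl fun w _ => ?_
    by_cases h : G.Adj v w
    · rw [if_pos h, mul_sum]
      refine sum_congr rfl fun j _ => ?_
      rw [if_pos (show (blow G m).Adj ⟨v, i⟩ ⟨w, j⟩ from h)]
    · rw [if_neg h]
      refine sum_eq_zero fun j _ => ?_
      rw [if_neg (show ¬ (blow G m).Adj ⟨v, i⟩ ⟨w, j⟩ from h)]
  rw [sum_congr rfl (fun i _ => h1 i), sum_comm]
  refine sum_congr rfl fun w _ => ?_
  by_cases h : G.Adj v w
  · simp only [if_pos h]
    rw [sum_mul]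
  · simp only [if_neg h, sum_const_zero]

end Pool.Agent.U137.HB
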