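import Pool.Agent.U137.HB.Blow
import Pool.Agent.U797.GC.Flat

set_option autoImplicit false
set_option maxHeartbeats 4000000

/-!
# Cuts for vertex weights
-/

namespace Pool.Agent.U137.HB

open Finset Pool.Agent.Y394.AT Pool.Agent.R50.MC
open Pool.Agent.U797.GC (Sg dg)

variable {V : Type} [Fintype V] {G : SimpleGraph V}

open Classical in
theorem wround {x : V → ℝ} (hx : ∀ v, 0 ≤ x v) (S : Finset V) (y : V → ℝ)
    (hy : ∀ v, |y v| ≤ x v) :
    ∃ s : V → ℝ, (∀ v, |s v| ≤ x v) ∧ (∀ v ∈ S, s v = x v ∨ s v = -x v) ∧ q G s ≤ q G y := by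
  induction S using Finset.induction_on with
  | empty => exact ⟨y, hy, by simp, le_refl _⟩
  | insert v S hv ih =>
    obtain ⟨s, hs1, hs2, hs3⟩ := ih
    obtain ⟨L, hL⟩ : ∃ L : ℝ, L = bb G s (dl v) := ⟨_, rfl⟩
    have hst : ∀ t : ℝ, q G (fun w => s w + t * dl v w) = q G s + 2 * t * L := by
      intro t
      rw [q_add, q_dl, hL]
      ring
    have hval : ∀ t : ℝ, ∀ w, w = v → s w + (t - s v) * dl v w = t := by
      intro t w hw
      subst hw
      unfold dl
      simp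
    have hother : ∀ t : ℝ, ∀ w, w ≠ v → s w + (t - s v) * dl v w = s w := by
      intro t w hw
      unfold dl
      simp [hw]
    have main : ∀ t : ℝ, (t = x v ∨ t = -x v) → (t - s v) * L ≤ 0 →
        ∃ s : V → ℝ, (∀ v, |s v| ≤ x v) ∧ (∀ w ∈ insert v S, s w = x w ∨ s w = -x w) ∧
          q G s ≤ q G y := by
      intro t ht htL
      refine ⟨fun w => s w + (t - s v) * dl v w, ?_, ?_, ?_⟩
      · intro w
        by_cases hw : w = v
        · simp only
          rw [hval t w hw, hw]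
          rcases ht with rfl | rfl
          · rw [abs_of_nonneg (hx v)]
          · rw [abs_neg, abs_of_nonneg (hx v)]
        · simp only
          rw [hother t w hw]
          exact hs1 w
      · intro w hw
        by_cases hwv : w = v
        · simp only
          rw [hval t w hwv, hwv]
          exact ht
        · simp only
          rw [hother t w hwv]
          exact hs2 w ((Finset.mem_insert.1 hw).resolve_left hwv)
      · rw [hst]
        nlinarith
    have hsv := abs_le.1 (hs1 v)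
    rcases le_total 0 L with h | h
    · apply main (-x v) (Or.inr rfl)
      nlinarith [hsv.1]
    · apply main (x v) (Or.inl rfl)
      nlinarith [hsv.2]

/-- From the blow-ups to the vertex weights. -/
theorem wcut_of {c : ℝ} (hc : 0 < c)
    (H : ∀ m : V → ℕ, ∃ s : (Σ v, Fin (m v)) → ℝ, (∀ p, s p = 1 ∨ s p = -1) ∧
      q (blow G m) s ≤ -(c * q (blow G m) (fun _ => 1)))
    (x : V → ℝ) (hx : ∀ v, 0 ≤ x v) :
    ∃ s : V → ℝ, (∀ v, s v = 1 ∨ s v = -1) ∧ q G (fun v => s v * x v) ≤ -(c / 4 * q G x) := by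
  classical
  obtain ⟨N, hN, hN1⟩ : ∃ N : ℝ, 0 < N ∧ ∀ v, x v = 0 ∨ 1 ≤ N * x v := by
    refine ⟨∑ v, (x v)⁻¹ + 1, ?_, ?_⟩
    · have : 0 ≤ ∑ v, (x v)⁻¹ := sum_nonneg fun v _ => inv_nonneg.2 (hx v)
      linarith
    · intro v
      rcases (hx v).eq_or_lt with h | h
      · exact Or.inl h.symm
      · right
        have h1 : (x v)⁻¹ ≤ ∑ v, (x v)⁻¹ :=
          single_le_sum (f := fun v => (x v)⁻¹) (fun v _ => inv_nonneg.2 (hx v)) (mem_univ v)
        have h2 : (x v)⁻¹ * x v = 1 := inv_mul_cancel₀ h.ne'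
        nlinarith
  obtain ⟨m, hm⟩ : ∃ m : V → ℕ, m = fun v => ⌊N * x v⌋₊ := ⟨_, rfl⟩
  have hNx : ∀ v, 0 ≤ N * x v := fun v => mul_nonneg hN.le (hx v)
  have hm1 : ∀ v, (m v : ℝ) ≤ N * x v := by
    intro v
    rw [hm]
    exact Nat.floor_le (hNx v)
  have hm2 : ∀ v, N * x v ≤ 2 * m v := by
    intro v
    rcases hN1 v with h1 | h1
    · rw [h1, mul_zero]
      positivity
    · have h2 : N * x v < (m v : ℝ) + 1 := by
        rw [hm]
        exact Nat.lt_floor_add_one _
      have h3 : 1 ≤ m v := by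
        rw [hm]
        exact (Nat.one_le_floor_iff _).2 h1
      have h4 : (1 : ℝ) ≤ m v := by exact_mod_cast h3
      linarith
  obtain ⟨s, hs1, hs2⟩ := H m
  obtain ⟨y, hy⟩ : ∃ y : V → ℝ, y = fun v => N⁻¹ * ∑ i, s ⟨v, i⟩ := ⟨_, rfl⟩
  have hyx : ∀ v, |y v| ≤ x v := by
    intro v
    have h1 : |∑ i, s ⟨v, i⟩| ≤ m v := by
      refine (abs_sum_le_sum_abs _ _).trans ?_
      have h2 : ∀ i : Fin (m v), |s ⟨v, i⟩| = 1 := by
        intro i
        rcases hs1 ⟨v, i⟩ with h | h <;> rw [h] <;> norm_num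
      rw [sum_congr rfl (fun i _ => h2 i)]
      simp
    rw [hy]
    beta_reduce
    rw [abs_mul, abs_of_pos (inv_pos.2 hN), inv_mul_le_iff₀ hN]
    exact h1.trans (hm1 v)
  obtain ⟨z, hz1, hz2, hz3⟩ := wround (G := G) hx univ y hyx
  have hqy : q G y = N⁻¹ ^ 2 * q (blow G m) s := by
    rw [q_blow, hy, q_smul]
  have hone : N ^ 2 * q G x ≤ 4 * q (blow G m) (fun _ => 1) := by
    rw [q_blow, ← q_smul]
    have e : 4 * q G (fun v => ∑ i : Fin (m v), (1 : ℝ)) =
        q G (fun v => 2 * ∑ i : Fin (m v), (1 : ℝ)) := by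
      rw [q_smul]
      norm_num
    rw [e]
    unfold q bb
    refine sum_le_sum fun v _ => sum_le_sum fun w _ => ?_
    split_ifs
    · simp only [sum_const, card_univ, Fintype.card_fin, nsmul_eq_mul, mul_one]
      exact mul_le_mul (hm2 v) (hm2 w) (hNx w) (by positivity)
    · exact le_rfl
  refine ⟨fun v => if z v = x v then 1 else -1, ?_, ?_⟩
  · intro v
    beta_reduce
    split_ifs
    · exact Or.inl rfl
    · exact Or.inr rfl
  · have e : (fun v => (if z v = x v then (1 : ℝ) else -1) * x v) = z := by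
      funext v
      split_ifs with h
      · rw [h, one_mul]
      · rcases hz2 v (mem_univ v) with h1 | h1
        · exact absurd h1 h
        · rw [h1]
          ring
    rw [e]
    refine hz3.trans ?_
    rw [hqy]
    have h1 : N⁻¹ ^ 2 * q (blow G m) s ≤ N⁻¹ ^ 2 * (-(c * q (blow G m) (fun _ => 1))) :=
      mul_le_mul_of_nonneg_left hs2 (by positivity)
    have h2 : N⁻¹ ^ 2 * (c * (N ^ 2 * q G x)) ≤
        N⁻¹ ^ 2 * (c * (4 * q (blow G m) (fun _ => 1))) :=
      mul_le_mul_of_nonneg_left (mul_le_mul_of_nonneg_left hone hc.le) (by positivity)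
    have h3 : N⁻¹ ^ 2 * (c * (N ^ 2 * q G x)) = c * q G x := by
      field_simp
    rw [h3] at h2
    linarith

/-- **Cuts for all vertex weights.** -/
theorem forest_cut (m : ℕ) (F : SimpleGraph (Fin m)) (hF : F.IsAcyclic) (k : ℕ) :
    ∃ c : ℝ, 0 < c ∧
    ∀ (V : Type) [Fintype V] (G : SimpleGraph V), ¬ Nonempty (F ↪g G) → G.CliqueFree k →
      ∀ x : V → ℝ, (∀ v, 0 ≤ x v) →
      ∃ s : V → ℝ, (∀ v, s v = 1 ∨ s v = -1) ∧ q G (fun v => s v * x v) ≤ -(c * q G x) := by
  classical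
  have e : Fin m × Bool ≃ Fin (Fintype.card (Fin m × Bool)) := Fintype.equivFin _
  let F' : SimpleGraph (Fin (Fintype.card (Fin m × Bool))) := (fat F).map e.toEmbedding
  let iso : fat F ≃g F' := SimpleGraph.Iso.map e (fat F)
  have hF' : F'.IsAcyclic := (iso.isAcyclic_iff).1 (fat_acyclic F hF)
  obtain ⟨T, hT, ⟨φ⟩⟩ := Pool.Agent.H367R3.forest_in_tree F' hF'
  obtain ⟨c, hc, H⟩ := Pool.Agent.U797.GC.main_all _ k T hT
  refine ⟨c / 4, by linarith, ?_⟩
  intro V _ G hFG hfree x hx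
  refine wcut_of hc ?_ x hx
  intro mm
  obtain ⟨s, hs1, _, hs2⟩ := H _ (blow G mm) ((blow_cliqueFree hfree mm).mono (Nat.le_succ k)) ⟨by
    intro ψ
    obtain ⟨χ⟩ := blow_emb (fat F) (fat_twin F) mm ((iso.toEmbedding.trans φ).trans ψ)
    exact hFG ⟨(fatEmb F).trans χ⟩⟩
  refine ⟨s, fun p => hs1 p (mem_univ p), hs2.trans (le_of_eq ?_)⟩
  congr 2
  unfold q
  rw [bb_eq]
  refine sum_congr rfl fun p _ => ?_
  unfold dg
  simp

end Pool.Agent.U137.HB
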