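import Pool.Agent.U137.HB.Cut

set_option autoImplicit false
set_option maxHeartbeats 4000000

/-!
# Cuts for edge weights which are nearly of rank one on a bounded number of classes
-/

namespace Pool.Agent.U137.HB

open Finset Pool.Agent.Y394.AT Pool.Agent.R50.MC

variable {V : Type} [Fintype V] {G : SimpleGraph V}

/-- the bilinear form of edge weights -/
def bW (W : V → V → ℝ) (f g : V → ℝ) : ℝ := ∑ u, ∑ v, W u v * (f u * g v)

theorem bW_comm {W : V → V → ℝ} (hW : ∀ u v, W u v = W v u) (f g : V → ℝ) :
    bW W f g = bW W g f := by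
  unfold bW
  rw [sum_comm]
  refine sum_congr rfl fun v _ => sum_congr rfl fun u _ => ?_
  rw [hW u v]
  ring

theorem bW_add {W : V → V → ℝ} (hW : ∀ u v, W u v = W v u) (f g : V → ℝ) (t : ℝ) :
    bW W (fun v => f v + t * g v) (fun v => f v + t * g v) =
      bW W f f + 2 * t * bW W f g + t ^ 2 * bW W g g := by
  have h1 : bW W (fun v => f v + t * g v) (fun v => f v + t * g v) =
      bW W f f + t * bW W f g + t * bW W g f + t ^ 2 * bW W g g := by
    unfold bW
    simp only [mul_sum]
    rw [← sum_add_distrib, ← sum_add_distrib, ← sum_add_distrib]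
    refine sum_congr rfl fun u _ => ?_
    rw [← sum_add_distrib, ← sum_add_distrib, ← sum_add_distrib]
    refine sum_congr rfl fun v _ => ?_
    ring
  rw [h1, bW_comm hW g f]
  ring

/-- random signs for a family of functions -/
theorem union_signs {W : V → V → ℝ} (hW : ∀ u v, W u v = W v u) {ι : Type} [DecidableEq ι]
    (I : Finset ι) (f : ι → V → ℝ) : ∃ ε : ι → ℝ, (∀ i, ε i = 1 ∨ ε i = -1) ∧
      bW W (fun v => ∑ i ∈ I, ε i * f i v) (fun v => ∑ i ∈ I, ε i * f i v) ≤
        ∑ i ∈ I, bW W (f i) (f i) := by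
  induction I using Finset.induction_on with
  | empty =>
    refine ⟨fun _ => 1, fun _ => Or.inl rfl, ?_⟩
    simp [bW]
  | insert i I hi ih =>
    obtain ⟨ε, hε, h⟩ := ih
    have key : ∀ t : ℝ, (fun v => ∑ j ∈ insert i I, (if j = i then t else ε j) * f j v) =
        fun v => (∑ j ∈ I, ε j * f j v) + t * f i v := by
      intro t
      funext v
      rw [sum_insert hi, if_pos rfl, add_comm]
      congr 1
      refine sum_congr rfl fun j hj => ?_
      rw [if_neg (fun h' : j = i => hi (h' ▸ hj))]
    have e1 := bW_add hW (fun v => ∑ j ∈ I, ε j * f j v) (f i) 1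
    have e2 := bW_add hW (fun v => ∑ j ∈ I, ε j * f j v) (f i) (-1)
    rw [← key] at e1 e2
    rw [sum_insert hi]
    rcases le_total 0 (bW W (fun v => ∑ j ∈ I, ε j * f j v) (f i)) with h1 | h1
    · refine ⟨fun j => if j = i then -1 else ε j, ?_, ?_⟩
      · intro j
        beta_reduce
        split_ifs
        · exact Or.inr rfl
        · exact hε j
      · rw [e2]
        linarith
    · refine ⟨fun j => if j = i then 1 else ε j, ?_, ?_⟩
      · intro j
        beta_reduce
        split_ifs
        · exact Or.inl rfl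
        · exact hε j
      · rw [e1]
        linarith

open Classical in
/-- **The main step.** -/
theorem core {ι : Type} [Fintype ι] (cls : V → ι) (x : V → ℝ) (hx : ∀ v, 0 ≤ x v)
    (W : V → V → ℝ) (hsym : ∀ u v, W u v = W v u) (hW0 : ∀ u v, 0 ≤ W u v) {c δ : ℝ}
    (hc : 0 < c) (hδc : δ ≤ c / 2)
    (hcut : ∀ x : V → ℝ, (∀ v, 0 ≤ x v) → ∃ s : V → ℝ, (∀ v, s v = 1 ∨ s v = -1) ∧
      q G (fun v => s v * x v) ≤ -(c * q G x))
    (hin : ∀ u v, cls u = cls v → (G.Adj u v → (1 - δ) * (x u * x v) ≤ W u v ∧ W u v ≤ x u * x v) ∧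
      (¬ G.Adj u v → W u v = 0)) :
    ∃ s : V → ℝ, (∀ v, s v = 1 ∨ s v = -1) ∧
      bW W s s ≤ -(min (c / 2) 1 * (1 / (2 * ((Fintype.card ι : ℝ) + 1) ^ 2)) *
        bW W (fun _ => 1) (fun _ => 1)) := by
  obtain ⟨r, hr⟩ : ∃ r : ℝ, r = (Fintype.card ι : ℝ) + 1 := ⟨_, rfl⟩
  have hr1 : 1 ≤ r := by
    rw [hr]
    have : (0 : ℝ) ≤ (Fintype.card ι : ℝ) := Nat.cast_nonneg _
    linarith
  obtain ⟨θ, hθ⟩ : ∃ θ : ℝ, θ = 1 / (2 * r ^ 2) := ⟨_, rfl⟩
  have hθ0 : 0 < θ := by rw [hθ]; positivity
  have hθ1 : θ ≤ 1 / 2 := by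
    rw [hθ]
    apply one_div_le_one_div_of_le (by norm_num)
    nlinarith
  rw [← hr, ← hθ]
  -- the classes
  obtain ⟨o, ho⟩ : ∃ o : ι → V → ℝ, o = fun i v => if cls v = i then 1 else 0 := ⟨_, rfl⟩
  have ho1 : ∀ i v, cls v = i → o i v = 1 := by
    intro i v h
    rw [ho]
    exact if_pos h
  have ho2 : ∀ i v, cls v ≠ i → o i v = 0 := by
    intro i v h
    rw [ho]
    exact if_neg h
  have ho0 : ∀ i v, 0 ≤ o i v := by
    intro i v
    by_cases h : cls v = i
    · rw [ho1 i v h]
      norm_num
    · rw [ho2 i v h]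
  have hosum : ∀ v, ∑ i, o i v = 1 := by
    intro v
    rw [sum_eq_single (cls v)]
    · exact ho1 _ v rfl
    · intro i _ hi
      exact ho2 i v (fun h => hi h.symm)
    · intro h
      exact absurd (mem_univ _) h
  have hb0 : ∀ i j, 0 ≤ bW W (o i) (o j) := by
    intro i j
    unfold bW
    exact sum_nonneg fun u _ => sum_nonneg fun v _ =>
      mul_nonneg (hW0 u v) (mul_nonneg (ho0 i u) (ho0 j v))
  obtain ⟨T, hT⟩ : ∃ T : ℝ, T = bW W (fun _ => 1) (fun _ => 1) := ⟨_, rfl⟩
  obtain ⟨I, hI⟩ : ∃ I : ℝ, I = ∑ i, bW W (o i) (o i) := ⟨_, rfl⟩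
  have hTsum : T = ∑ i, ∑ j, bW W (o i) (o j) := by
    rw [hT]
    unfold bW
    have h1 : ∀ i : ι, ∑ j, ∑ u, ∑ v, W u v * (o i u * o j v) =
        ∑ u, ∑ v, W u v * o i u := by
      intro i
      rw [sum_comm]
      refine sum_congr rfl fun u _ => ?_
      rw [sum_comm]
      refine sum_congr rfl fun v _ => ?_
      have : ∀ j, W u v * (o i u * o j v) = W u v * o i u * o j v := fun j => by ring
      rw [sum_congr rfl (fun j _ => this j), ← mul_sum, hosum, mul_one]
    rw [sum_congr rfl (fun i _ => h1 i)]
    conv_rhs => rw [sum_comm]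
    refine sum_congr rfl fun u _ => ?_
    conv_rhs => rw [sum_comm]
    refine sum_congr rfl fun v _ => ?_
    rw [← mul_sum, hosum]
    ring
  have hI0 : 0 ≤ I := by rw [hI]; exact sum_nonneg fun i _ => hb0 i i
  have hT0 : 0 ≤ T := by
    rw [hTsum]
    exact sum_nonneg fun i _ => sum_nonneg fun j _ => hb0 i j
  rw [← hT]
  -- signs from a family of functions
  have glue : ∀ (g : ι → V → ℝ), (∀ v, ∃ i, (g i v = 1 ∨ g i v = -1) ∧ ∀ j, j ≠ i → g j v = 0) →
      ∃ s : V → ℝ, (∀ v, s v = 1 ∨ s v = -1) ∧ bW W s s ≤ ∑ i, bW W (g i) (g i) := by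
    intro g hg
    obtain ⟨ε, hε, h⟩ := union_signs hsym univ g
    refine ⟨fun v => ∑ i, ε i * g i v, ?_, h⟩
    intro v
    obtain ⟨i, hi, hj⟩ := hg v
    beta_reduce
    rw [sum_eq_single i]
    · rcases hε i with h1 | h1 <;> rcases hi with h2 | h2 <;> rw [h1, h2] <;> norm_num
    · intro j _ hji
      rw [hj j hji, mul_zero]
    · intro h
      exact absurd (mem_univ _) h
  rcases le_total (θ * T) I with hcase | hcase
  · -- many edges inside the classes
    have hcl : ∀ i, ∃ s : V → ℝ, (∀ v, s v = 1 ∨ s v = -1) ∧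
        bW W (fun v => s v * o i v) (fun v => s v * o i v) ≤ -(c / 2 * bW W (o i) (o i)) := by
      intro i
      obtain ⟨s, hs1, hs2⟩ := hcut (fun v => o i v * x v) (fun v => mul_nonneg (ho0 i v) (hx v))
      refine ⟨s, hs1, ?_⟩
      have h1 : bW W (fun v => s v * o i v) (fun v => s v * o i v) ≤
          q G (fun v => s v * (o i v * x v)) + δ * q G (fun v => o i v * x v) := by
        unfold q bb bW
        rw [mul_sum, ← sum_add_distrib]
        refine sum_le_sum fun u _ => ?_
        rw [mul_sum, ← sum_add_distrib]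
        refine sum_le_sum fun v _ => ?_
        beta_reduce
        by_cases hu : cls u = i
        swap
        · rw [ho2 i u hu]
          simp
        by_cases hv : cls v = i
        swap
        · rw [ho2 i v hv]
          simp
        rw [ho1 i u hu, ho1 i v hv]
        obtain ⟨k1, k2⟩ := hin u v (hu.trans hv.symm)
        by_cases huv : G.Adj u v
        · rw [if_pos huv, if_pos huv]
          obtain ⟨k3, k4⟩ := k1 huv
          rcases hs1 u with h5 | h5 <;> rcases hs1 v with h6 | h6 <;> rw [h5, h6] <;> nlinarith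
        · rw [if_neg huv, if_neg huv, k2 huv]
          simp
      have h2 : bW W (o i) (o i) ≤ q G (fun v => o i v * x v) := by
        unfold q bb bW
        refine sum_le_sum fun u _ => sum_le_sum fun v _ => ?_
        beta_reduce
        by_cases hu : cls u = i
        swap
        · rw [ho2 i u hu]
          simp
        by_cases hv : cls v = i
        swap
        · rw [ho2 i v hv]
          simp
        rw [ho1 i u hu, ho1 i v hv]
        obtain ⟨k1, k2⟩ := hin u v (hu.trans hv.symm)
        by_cases huv : G.Adj u v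
        · rw [if_pos huv]
          obtain ⟨k3, k4⟩ := k1 huv
          linarith
        · rw [if_neg huv, k2 huv]
          simp
      have h3 := hb0 i i
      have h4 : 0 ≤ q G (fun v => o i v * x v) := h3.trans h2
      have h5 : δ * q G (fun v => o i v * x v) ≤ c / 2 * q G (fun v => o i v * x v) :=
        mul_le_mul_of_nonneg_right hδc h4
      have h6 : c / 2 * bW W (o i) (o i) ≤ c / 2 * q G (fun v => o i v * x v) :=
        mul_le_mul_of_nonneg_left h2 (by linarith)
      linarith
    choose s hs1 hs2 using hcl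
    obtain ⟨S, hS1, hS2⟩ := glue (fun i v => s i v * o i v) (by
      intro v
      refine ⟨cls v, ?_, ?_⟩
      · beta_reduce
        rw [ho1 _ v rfl, mul_one]
        exact hs1 _ v
      · intro j hj
        beta_reduce
        rw [ho2 j v (fun h => hj h.symm), mul_zero])
    refine ⟨S, hS1, hS2.trans ?_⟩
    have h1 : ∑ i, bW W (fun v => s i v * o i v) (fun v => s i v * o i v) ≤ -(c / 2 * I) := by
      rw [hI, mul_sum, ← sum_neg_distrib]
      exact sum_le_sum fun i _ => hs2 i
    refine h1.trans ?_
    have h2 : min (c / 2) 1 * θ * T ≤ c / 2 * I := by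
      calc min (c / 2) 1 * θ * T = min (c / 2) 1 * (θ * T) := by ring
        _ ≤ c / 2 * (θ * T) :=
          mul_le_mul_of_nonneg_right (min_le_left _ _) (by positivity)
        _ ≤ c / 2 * I := mul_le_mul_of_nonneg_left hcase (by linarith)
    linarith
  · -- few edges inside the classes
    rcases hT0.eq_or_lt with hT1 | hT1
    · obtain ⟨S, hS1, hS2⟩ := glue o (by
        intro v
        exact ⟨cls v, Or.inl (ho1 _ v rfl), fun j hj => ho2 j v (fun h => hj h.symm)⟩)
      refine ⟨S, hS1, hS2.trans ?_⟩
      rw [← hI, ← hT1, mul_zero, neg_zero]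
      rw [← hT1, mul_zero] at hcase
      exact hcase
    have hpair : ∃ i j : ι, i ≠ j ∧ T / (2 * r ^ 2) ≤ bW W (o i) (o j) := by
      by_contra hcon
      push Not at hcon
      have h1 : T ≤ ∑ i, (bW W (o i) (o i) + ∑ _j : ι, T / (2 * r ^ 2)) := by
        conv_lhs => rw [hTsum]
        refine sum_le_sum fun i _ => ?_
        have h2 : ∑ j, bW W (o i) (o j) ≤
            ∑ j, ((if j = i then bW W (o i) (o i) else 0) + T / (2 * r ^ 2)) := by
          refine sum_le_sum fun j _ => ?_
          by_cases hij : j = i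
          · rw [if_pos hij, hij]
            have : 0 ≤ T / (2 * r ^ 2) := by positivity
            linarith
          · rw [if_neg hij, zero_add]
            exact (hcon i j (fun h => hij h.symm)).le
        refine h2.trans ?_
        rw [sum_add_distrib, sum_ite_eq' univ i (fun _ => bW W (o i) (o i)), if_pos (mem_univ _)]
      rw [sum_add_distrib, ← hI] at h1
      simp only [sum_const, card_univ, nsmul_eq_mul] at h1
      have h2 : (Fintype.card ι : ℝ) = r - 1 := by rw [hr]; ring
      rw [h2] at h1
      have h3 : (r - 1) * ((r - 1) * (T / (2 * r ^ 2))) < T / 2 := by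
        have h4 : (r - 1) * ((r - 1) * (T / (2 * r ^ 2))) = (r - 1) ^ 2 * (T / 2) / r ^ 2 := by
          field_simp
        rw [h4, div_lt_iff₀ (by positivity)]
        nlinarith
      have h5 : θ * T ≤ T / 2 := by nlinarith
      linarith
    obtain ⟨i, j, hij, hb⟩ := hpair
    obtain ⟨g, hg⟩ : ∃ g : ι → V → ℝ, g = fun l => if l = i then (fun v => o i v + -1 * o j v)
        else if l = j then (fun _ => 0) else o l := ⟨_, rfl⟩
    have hgi : g i = fun v => o i v + -1 * o j v := by
      rw [hg]
      exact if_pos rfl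
    have hgj : g j = fun _ => 0 := by
      rw [hg]
      beta_reduce
      rw [if_neg (fun h => hij h.symm), if_pos rfl]
    have hgl : ∀ l, l ≠ i → l ≠ j → g l = o l := by
      intro l h1 h2
      rw [hg]
      beta_reduce
      rw [if_neg h1, if_neg h2]
    obtain ⟨S, hS1, hS2⟩ := glue g (by
      intro v
      by_cases h1 : cls v = i
      · refine ⟨i, Or.inl ?_, ?_⟩
        · rw [hgi]
          beta_reduce
          rw [ho1 i v h1, ho2 j v (fun h => hij (h1.symm.trans h))]
          ring
        · intro l hl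
          by_cases h2 : l = j
          · rw [h2, hgj]
          · rw [hgl l hl h2]
            exact ho2 l v (fun h => hl (h.symm.trans h1))
      · by_cases h2 : cls v = j
        · refine ⟨i, Or.inr ?_, ?_⟩
          · rw [hgi]
            beta_reduce
            rw [ho2 i v h1, ho1 j v h2]
            ring
          · intro l hl
            by_cases h3 : l = j
            · rw [h3, hgj]
            · rw [hgl l hl h3]
              exact ho2 l v (fun h => h3 (h.symm.trans h2))
        · refine ⟨cls v, Or.inl ?_, ?_⟩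
          · rw [hgl _ h1 h2]
            exact ho1 _ v rfl
          · intro l hl
            by_cases h3 : l = i
            · rw [h3, hgi]
              beta_reduce
              rw [ho2 i v h1, ho2 j v h2]
              ring
            · by_cases h4 : l = j
              · rw [h4, hgj]
              · rw [hgl l h3 h4]
                exact ho2 l v (fun h => hl h.symm))
    refine ⟨S, hS1, hS2.trans ?_⟩
    have h1 : ∑ l, bW W (g l) (g l) ≤ I - 2 * bW W (o i) (o j) := by
      have h2 : ∀ l, bW W (g l) (g l) ≤ bW W (o l) (o l) +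
          ((if l = i then bW W (o j) (o j) - 2 * bW W (o i) (o j) else 0) -
          (if l = j then bW W (o j) (o j) else 0)) := by
        intro l
        by_cases h3 : l = i
        · rw [if_pos h3, if_neg (fun h => hij (h3.symm.trans h)), h3, hgi, bW_add hsym]
          apply le_of_eq
          ring
        · rw [if_neg h3]
          by_cases h4 : l = j
          · rw [if_pos h4, h4, hgj]
            apply le_of_eq
            simp [bW]
          · rw [if_neg h4, hgl l h3 h4]
            simp
      refine (sum_le_sum fun l _ => h2 l).trans ?_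
      rw [sum_add_distrib, sum_sub_distrib, ← hI]
      rw [sum_ite_eq' univ i (fun _ => bW W (o j) (o j) - 2 * bW W (o i) (o j)),
        sum_ite_eq' univ j (fun _ => bW W (o j) (o j)), if_pos (mem_univ _), if_pos (mem_univ _)]
      apply le_of_eq
      ring
    refine h1.trans ?_
    have h2 : T / (2 * r ^ 2) = θ * T := by
      rw [hθ]
      ring
    rw [h2] at hb
    have h3 : min (c / 2) 1 * θ * T ≤ θ * T := by
      have h4 : min (c / 2) 1 * (θ * T) ≤ 1 * (θ * T) :=
        mul_le_mul_of_nonneg_right (min_le_right _ _) (by positivity)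
      linarith
    linarith

end Pool.Agent.U137.HB
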