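import Pool.Agent.U137.HB.Rank

set_option autoImplicit false
set_option maxHeartbeats 4000000

/-!
# Edge weights of bounded rank: cuts and eigenvalues
-/

namespace Pool.Agent.U137.HB

open Finset Pool.Agent.Y394.AT Pool.Agent.R50.MC

/-- the edge weights given by vectors -/
noncomputable def WX {V : Type} (G : SimpleGraph V) {t : ℕ} (X : V → Fin t → ℝ) (u v : V) : ℝ :=
  open Classical in if G.Adj u v then ∑ i, X u i * X v i else 0

theorem WX_symm {V : Type} {G : SimpleGraph V} {t : ℕ} (X : V → Fin t → ℝ) (u v : V) :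
    WX G X u v = WX G X v u := by
  classical
  unfold WX
  by_cases h : G.Adj u v
  · rw [if_pos h, if_pos h.symm]
    exact sum_congr rfl fun i _ => mul_comm _ _
  · rw [if_neg h, if_neg (fun h' => h h'.symm)]

theorem WX_nonneg {V : Type} {G : SimpleGraph V} {t : ℕ} {X : V → Fin t → ℝ}
    (hX : ∀ u v, G.Adj u v → 0 ≤ ∑ i, X u i * X v i) (u v : V) : 0 ≤ WX G X u v := by
  classical
  unfold WX
  split_ifs with h
  · exact hX u v h
  · exact le_rfl

/-- a vector is divided into cells according to its direction -/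
theorem cells (t n : ℕ) (hn : 1 ≤ n) : ∃ cl : (Fin t → ℝ) → (Fin t → Fin (2 * n + 1)),
    ∀ p q : Fin t → ℝ, cl p = cl q →
      (1 - (t : ℝ) / (2 * (n : ℝ) ^ 2)) * (√(∑ i, p i ^ 2) * √(∑ i, q i ^ 2)) ≤
        ∑ i, p i * q i := by
  have hn0 : (0 : ℝ) < n := by exact_mod_cast hn
  obtain ⟨D, hD⟩ : ∃ D : (Fin t → ℝ) → Fin t → ℝ, D = fun p i => p i / √(∑ i, p i ^ 2) := ⟨_, rfl⟩
  have hD1 : ∀ p i, |D p i| ≤ 1 := by
    intro p i
    rw [hD]
    beta_reduce
    rw [abs_div, abs_of_nonneg (Real.sqrt_nonneg _)]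
    apply div_le_one_of_le₀ _ (Real.sqrt_nonneg _)
    apply Real.abs_le_sqrt
    exact single_le_sum (f := fun i => p i ^ 2) (fun i _ => sq_nonneg (p i)) (mem_univ i)
  have hfl : ∀ p i, 0 ≤ ⌊(n : ℝ) * D p i⌋ + n ∧ ⌊(n : ℝ) * D p i⌋ + n ≤ 2 * n := by
    intro p i
    have h1 := abs_le.1 (hD1 p i)
    constructor
    · have : (-(n : ℤ)) ≤ ⌊(n : ℝ) * D p i⌋ := by
        rw [Int.le_floor]
        push_cast
        nlinarith
      omega
    · have : ⌊(n : ℝ) * D p i⌋ ≤ n := by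
        have h2 : (n : ℝ) * D p i ≤ ((n : ℤ) : ℝ) := by
          push_cast
          nlinarith
        exact_mod_cast (Int.floor_le _).trans h2
      omega
  refine ⟨fun p i => ⟨(⌊(n : ℝ) * D p i⌋ + n).toNat, ?_⟩, ?_⟩
  · have := hfl p i
    omega
  · intro p q hpq
    have h1 : ∀ i, ⌊(n : ℝ) * D p i⌋ = ⌊(n : ℝ) * D q i⌋ := by
      intro i
      have h2 := congrFun hpq i
      simp only [Fin.mk.injEq] at h2
      have := hfl p i
      have := hfl q i
      omega
    have h2 : ∀ i, (D p i - D q i) ^ 2 ≤ (1 / (n : ℝ)) ^ 2 := by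
      intro i
      have h3 := Int.floor_le ((n : ℝ) * D p i)
      have h4 := Int.lt_floor_add_one ((n : ℝ) * D p i)
      have h5 := Int.floor_le ((n : ℝ) * D q i)
      have h6 := Int.lt_floor_add_one ((n : ℝ) * D q i)
      rw [h1 i] at h3 h4
      have h7 : |(n : ℝ) * (D p i - D q i)| ≤ 1 := by
        rw [abs_le]
        constructor <;> linarith
      have h8 : |D p i - D q i| ≤ 1 / (n : ℝ) := by
        rw [abs_mul, abs_of_pos hn0] at h7
        rw [le_div_iff₀ hn0]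
        linarith
      exact sq_le_sq' (by linarith [(abs_le.1 h8).1]) (abs_le.1 h8).2
    obtain ⟨a, ha⟩ : ∃ a : ℝ, a = √(∑ i, p i ^ 2) := ⟨_, rfl⟩
    obtain ⟨b, hb⟩ : ∃ b : ℝ, b = √(∑ i, q i ^ 2) := ⟨_, rfl⟩
    have hp0 : 0 ≤ ∑ i, p i ^ 2 := sum_nonneg fun i _ => sq_nonneg _
    have hq0 : 0 ≤ ∑ i, q i ^ 2 := sum_nonneg fun i _ => sq_nonneg _
    have ha2 : a ^ 2 = ∑ i, p i ^ 2 := by rw [ha, Real.sq_sqrt hp0]
    have hb2 : b ^ 2 = ∑ i, q i ^ 2 := by rw [hb, Real.sq_sqrt hq0]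
    have hzero : ∀ r : Fin t → ℝ, √(∑ i, r i ^ 2) = 0 → ∀ i, r i = 0 := by
      intro r hr i
      have hr0 : 0 ≤ ∑ i, r i ^ 2 := sum_nonneg fun i _ => sq_nonneg _
      rw [Real.sqrt_eq_zero hr0] at hr
      have h3 := (sum_eq_zero_iff_of_nonneg (fun i _ => sq_nonneg (r i))).1 hr i (mem_univ i)
      exact pow_eq_zero_iff (two_ne_zero) |>.1 h3
    rw [← ha, ← hb]
    have ha0 : 0 ≤ a := by rw [ha]; exact Real.sqrt_nonneg _
    have hb0 : 0 ≤ b := by rw [hb]; exact Real.sqrt_nonneg _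
    rcases ha0.eq_or_lt with h3 | h3
    · have h4 := hzero p (by rw [← ha, ← h3])
      rw [← h3, zero_mul, mul_zero]
      apply le_of_eq
      symm
      exact sum_eq_zero fun i _ => by rw [h4 i, zero_mul]
    rcases hb0.eq_or_lt with h5 | h5
    · have h4 := hzero q (by rw [← hb, ← h5])
      rw [← h5, mul_zero, mul_zero]
      apply le_of_eq
      symm
      exact sum_eq_zero fun i _ => by rw [h4 i, mul_zero]
    have h6 : ∑ i, (D p i - D q i) ^ 2 ≤ (t : ℝ) / (n : ℝ) ^ 2 := by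
      refine (sum_le_sum fun i _ => h2 i).trans ?_
      rw [sum_const, card_univ, Fintype.card_fin, nsmul_eq_mul]
      apply le_of_eq
      ring
    have h7 : ∑ i, (D p i - D q i) ^ 2 = 2 - 2 * (∑ i, p i * q i) / (a * b) := by
      have e1 : ∀ i, (D p i - D q i) ^ 2 =
          p i ^ 2 / a ^ 2 + q i ^ 2 / b ^ 2 - 2 * (p i * q i) / (a * b) := by
        intro i
        rw [hD]
        beta_reduce
        rw [← ha, ← hb]
        field_simp
        ring
      rw [sum_congr rfl (fun i _ => e1 i), sum_sub_distrib, sum_add_distrib, ← sum_div, ← sum_div,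
        ← sum_div, ← mul_sum, ← ha2, ← hb2, div_self (by positivity), div_self (by positivity)]
      ring
    rw [h7] at h6
    have h8 : 1 - (t : ℝ) / (2 * (n : ℝ) ^ 2) ≤ (∑ i, p i * q i) / (a * b) := by
      have e2 : (t : ℝ) / (2 * (n : ℝ) ^ 2) = (t : ℝ) / (n : ℝ) ^ 2 / 2 := by
        field_simp
      have e3 : 2 * (∑ i, p i * q i) / (a * b) = 2 * ((∑ i, p i * q i) / (a * b)) := by ring
      rw [e2]
      rw [e3] at h6
      linarith
    rw [le_div_iff₀ (by positivity)] at h8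
    exact h8

/-- **Cuts for edge weights of bounded rank.** -/
theorem rank_cut (m : ℕ) (F : SimpleGraph (Fin m)) (hF : F.IsAcyclic) (k t : ℕ) :
    ∃ c : ℝ, 0 < c ∧
    ∀ (V : Type) [Fintype V] (G : SimpleGraph V), ¬ Nonempty (F ↪g G) → G.CliqueFree k →
      ∀ X : V → Fin t → ℝ, (∀ u v, G.Adj u v → 0 ≤ ∑ i, X u i * X v i) →
      ∃ s : V → ℝ, (∀ v, s v = 1 ∨ s v = -1) ∧
        bW (WX G X) s s ≤ -(c * bW (WX G X) (fun _ => 1) (fun _ => 1)) := by
  classical
  obtain ⟨c, hc, H⟩ := forest_cut m F hF k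
  obtain ⟨n, hn1, hn⟩ : ∃ n : ℕ, 1 ≤ n ∧ (t : ℝ) / (2 * (n : ℝ) ^ 2) ≤ c / 2 := by
    obtain ⟨n, hn⟩ := exists_nat_ge ((t : ℝ) / c)
    refine ⟨n + 1, by omega, ?_⟩
    rw [div_le_iff₀ hc] at hn
    push_cast
    rw [div_le_div_iff₀ (by positivity) (by norm_num)]
    have h0 : (0 : ℝ) ≤ n := Nat.cast_nonneg n
    have h1 : (n : ℝ) ≤ ((n : ℝ) + 1) ^ 2 := by nlinarith
    have h2 : (n : ℝ) * c ≤ ((n : ℝ) + 1) ^ 2 * c := mul_le_mul_of_nonneg_right h1 hc.le
    nlinarith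
  obtain ⟨cl, hcl⟩ := cells t n hn1
  refine ⟨_, ?_, fun V _ G hFG hfree X hX => core (G := G) (fun v => cl (X v))
    (fun v => √(∑ i, X v i ^ 2)) (fun v => Real.sqrt_nonneg _) (WX G X) (WX_symm X)
    (WX_nonneg hX) hc hn (H V G hFG hfree) ?_⟩
  · have : 0 < min (c / 2) 1 := lt_min (by linarith) one_pos
    positivity
  · intro u v huv
    constructor
    · intro hadj
      unfold WX
      rw [if_pos hadj]
      refine ⟨hcl _ _ huv, ?_⟩
      exact Real.sum_mul_le_sqrt_mul_sqrt _ _ _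
    · intro hadj
      unfold WX
      rw [if_neg hadj]

/-- from a vector with small form to an eigenvalue -/
theorem exists_eigenvalue {V : Type} [Fintype V] [DecidableEq V] (M : Matrix V V ℝ)
    (hM : M.IsHermitian) (f : V → ℝ) (hf : f ≠ 0) (a : ℝ)
    (h : f ⬝ᵥ (M.mulVec f) ≤ a * (f ⬝ᵥ f)) : ∃ b ∈ spectrum ℝ M, b ≤ a := by
  classical
  by_contra hcon
  push Not at hcon
  have hH : (M + (-a) • (1 : Matrix V V ℝ)).IsHermitian := by
    apply hM.add
    rw [Matrix.IsHermitian, Matrix.conjTranspose_smul, Matrix.conjTranspose_one]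
    simp
  have hpos : (M + (-a) • (1 : Matrix V V ℝ)).PosDef := by
    rw [hH.posDef_iff_eigenvalues_pos]
    intro i
    have h1 := hH.eigenvalues_mem_spectrum_real i
    have h2 : hH.eigenvalues i + a ∈ spectrum ℝ M := by
      rw [spectrum.add_mem_iff]
      convert h1 using 2
      rw [Algebra.algebraMap_eq_smul_one, add_comm, neg_smul]
    have h3 := hcon _ h2
    linarith
  have h1 := hpos.dotProduct_mulVec_pos hf
  rw [Matrix.add_mulVec, Matrix.smul_mulVec, Matrix.one_mulVec, dotProduct_add, dotProduct_smul,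
    star_trivial, smul_eq_mul] at h1
  linarith

end Pool.Agent.U137.HB
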